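import Pool.Agent.Helper87.NF.StD
import Pool.Agent.Helper87.NF.M_CH

/-!
# Module CV: the V-type certificate (helper85)
-/

set_option autoImplicit false
set_option maxSynthPendingDepth 3

open MeasureTheory Complex Filter Topology
open scoped ENNReal NNReal ComplexConjugate

noncomputable section

namespace Helper85.NF

open Helper85.IW Helper87.NF

theorem nufV_up {d1 τ σ r s : ℝ} (hτ : 0 < τ) (hσ : 0 < σ) (hr : 0 < r)
    (hrs : r < s) (hL : σ ≤ r + s) :
    nuf d1 τ 1 σ (r, s) = 2 - (d1 + (2 - d1) * (max (τ * s - r) 0 / (τ * s))) := by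
  have hs : 0 < s := hr.trans hrs
  have h1 : min 1 ((r + s) / σ) = 1 := min_eq_left ((one_le_div hσ).2 hL)
  have h2 : 1 ≤ s / (1 * r) := by
    rw [one_le_div (by positivity)]
    linarith
  have hts : 0 < τ * s := by positivity
  simp only [nuf]
  rw [h1, mul_one]
  rcases le_or_gt (τ * s) r with h | h
  · have h3 : 1 ≤ r / (τ * s) := (one_le_div hts).2 h
    rw [min_eq_left (le_min h3 h2), max_eq_right (by linarith)]
    ring
  · have h3 : r / (τ * s) ≤ 1 := (div_le_one hts).2 h.le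
    rw [min_eq_left (h3.trans h2), min_eq_right h3, max_eq_left (by linarith)]
    field_simp
    ring

theorem nufV_lo {d1 τ σ r s : ℝ} (hτ : 0 < τ) (hτ1 : τ < 1) (hσ : 0 < σ) (hs : 0 < s)
    (hrs : s < r) (hL : σ ≤ r + s) :
    nuf d1 τ 1 σ (r, s) = (2 - d1) * (s / r) := by
  have hr : 0 < r := hs.trans hrs
  have h1 : min 1 ((r + s) / σ) = 1 := min_eq_left ((one_le_div hσ).2 hL)
  have h2 : 1 ≤ r / (τ * s) := by
    rw [one_le_div (by positivity)]
    nlinarith
  have h3 : s / (1 * r) ≤ 1 := by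
    rw [div_le_one (by positivity)]
    linarith
  simp only [nuf]
  rw [h1, mul_one, min_eq_right (h3.trans h2), min_eq_right h3, one_mul]

set_option maxHeartbeats 4000000 in
theorem cv (hP5 : StP5) (hP6 : StP6) (hUA : StUA) (hVA : StVA) (hZA : StZA)
    (hW2 : StW2) (hW3 : StW3) (hUV1 : StUV1) (hUV2 : StUV2) (hEV : StEV)
    (hDU : StDU) (hDV : StDV) : StCV := by
  intro P P' q κ K W hq1 ε hε hε1
  have hK := W.K0
  have hq := W.q0
  obtain ⟨K', hK'1, hK'2⟩ := hUV2 P P' q κ K W ε hε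
  obtain ⟨hU1, hU2, hU3, hU4⟩ := hUV1 P P' q κ K W ε
  obtain ⟨hb1, hb2, hb3, hb4⟩ := hW2 P P' q κ K W
  -- constants
  obtain ⟨K1, hK1⟩ : ∃ K1, K1 = 2 * K + 1 := ⟨_, rfl⟩
  have hK1pos : 1 ≤ K1 := by rw [hK1]; linarith
  obtain ⟨d1, hd1⟩ : ∃ d1, d1 = ε ^ 2 / (2000 * K1 ^ 2) := ⟨_, rfl⟩
  have hd1pos : 0 < d1 := by rw [hd1]; positivity
  have hd1K : d1 * (2000 * K1 ^ 2) = ε ^ 2 := by
    rw [hd1]; field_simp
  have hd1K1 : d1 * K1 ≤ ε / 2000 := by
    have h1 : d1 * K1 * 2000 ≤ d1 * (2000 * K1 ^ 2) := by nlinarith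
    nlinarith
  have hd1s : d1 ≤ 1 / 2000 := by nlinarith
  obtain ⟨e, he⟩ : ∃ e, e = ε * d1 / 1000 := ⟨_, rfl⟩
  have hepos : 0 < e := by rw [he]; positivity
  have hes : e ≤ 1 / 1000 := by rw [he]; nlinarith
  obtain ⟨τ, hτ⟩ : ∃ τ, τ = e / (32 * (q + 1) * K + 4) := ⟨_, rfl⟩
  have hden : 0 < 32 * (q + 1) * K + 4 := by positivity
  have hτpos : 0 < τ := by rw [hτ]; positivity
  have hτe : τ * (32 * (q + 1) * K + 4) = e := by
    rw [hτ]; field_simp
  have hqK : 0 < q * K := by positivity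
  have hτqK : 0 < τ * (q * K) := by positivity
  have hτK : 0 < τ * K := by positivity
  have hτ2 : 4 * K * τ ≤ e := by nlinarith
  have hτ3 : K * τ ≤ e := by nlinarith
  have hτs : τ ≤ e := by nlinarith
  have hτh : τ < 1 / 2 := by linarith
  obtain ⟨σ, hσ, hσb⟩ := hb4 (e / 40) (by positivity)
  obtain ⟨hμu, hμb, hμ2⟩ := hP5 d1 τ 1 σ hd1pos (by linarith) hτpos one_pos hσ
  obtain ⟨hE1, hE2⟩ := hEV P P' q κ K W hq1 ε d1 τ hε hd1pos (by linarith) hτpos (by linarith)
  have key : ∀ r s : ℝ, 0 < r → 0 < s → r ≠ s → r ≠ τ * s → s ≠ τ * r →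
      ∃ urr urs uss Mr Ms Nr Ns : ℝ,
      HasFDerivAt (p1V P ε) (lin2 urr urs) (r, s) ∧ HasFDerivAt (p2V P) (lin2 urs uss) (r, s) ∧
      HasFDerivAt (MV P ε) (lin2 Mr Ms) (r, s) ∧
      HasFDerivAt (NV P ε d1 τ) (lin2 Nr Ns) (r, s) ∧
      ∀ x ξ ψ : ℝ,
        ε * d1 / 16 * (x ^ 2 + ξ ^ 2 + ψ ^ 2) ≤ FP (nuf d1 τ 1 σ (r, s)) urr urs uss
          (p1V P ε (r, s) / r) (p2V P (r, s) / s)
          (Mr / r) (Ms / r) (Nr / s) (Ns / s) x ξ ψ ∧
        ε * d1 / 16 * (x ^ 2 + ξ ^ 2 + ψ ^ 2) ≤ FM (nuf d1 τ 1 σ (r, s)) urr urs uss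
          (p1V P ε (r, s) / r) (p2V P (r, s) / s)
          (Mr / r) (Ms / r) (Nr / s) (Ns / s) x ξ ψ := by
    intro r s hr hs hrs h1 _h2
    have hεd : 0 < ε * d1 := by positivity
    rcases lt_or_gt_of_ne hrs with hlt | hgt
    · -- upper region
      obtain ⟨n1, n2, hD⟩ := hDU P P' q κ K W ε d1 τ r s hτpos (by linarith) hr hlt h1
      dsimp only at hD
      obtain ⟨k1, k2, k3, k4, k5⟩ := hD
      obtain ⟨k11, k12⟩ := k1 (p1V P ε) (by simp)
      obtain ⟨k21, k22⟩ := k2 (p2V P) (by simp)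
      have k31 := k3 (MV P ε) (by simp)
      have k41 := k4 (NV P ε d1 τ) (by simp)
      obtain ⟨k51, k52⟩ := k5 hd1pos.le (by linarith)
      refine ⟨_, _, _, _, _, _, _, k11, k21, k31, k41, ?_⟩
      intro x ξ ψ
      rw [k12, k22, mul_div_cancel_left₀ _ hr.ne', mul_div_cancel_left₀ _ hs.ne',
        mul_div_cancel_left₀ _ hs.ne', zero_div]
      set L := r + s with hLdef
      have hL : 0 < L := by positivity
      set B := Bw P (L / 2) with hB
      set g := r * P (L / 2) / (2 * L) with hg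
      set b := 2 * Aw P (L / 2) / s with hbdef
      set w := (2 - d1) * (max (τ * s - r) 0 / (τ * s)) with hw
      obtain ⟨w0, w1⟩ := M_CH.w_bd (d1 := d1) hd1pos.le (by linarith) hτpos hr hs
      rw [← hw] at w0 w1
      have hPL : P (L / 2) ≤ K := W.bd _
      have hPL0 : 0 ≤ P (L / 2) := (hb1 _).2.2.2.2.1
      have hA0 : 0 ≤ Aw P (L / 2) := (hb1 _).1
      have hb0 : 0 ≤ b := by positivity
      have hg0 : 0 ≤ g := by positivity
      have hAL : Aw P (L / 2) ≤ K * (L / 2) := (hb2 (L / 2) (by positivity)).1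
      have hLs : L ≤ 2 * s := by rw [hLdef]; linarith
      have hbK : b ≤ 2 * K := by
        rw [hbdef, div_le_iff₀ hs]
        nlinarith
      have hgK : g ≤ K / 2 := by
        rw [hg, div_le_iff₀ (by positivity)]
        have : r * P (L / 2) ≤ r * K := mul_le_mul_of_nonneg_left hPL hr.le
        have : r ≤ L := by rw [hLdef]; linarith
        nlinarith
      by_cases hσL : σ ≤ r + s
      · rw [nufV_up hτpos hσ hr hlt hσL, ← hw]
        have hgw : (d1 + w) * g ≤ ε / 8 := by
          by_cases hc : τ * s ≤ r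
          · have : w = 0 := by rw [hw, max_eq_right (by linarith)]; simp
            rw [this]
            nlinarith
          · push Not at hc
            have hgs : g ≤ τ * K := by
              rw [hg, div_le_iff₀ (by positivity)]
              have h5 : r * P (L / 2) ≤ τ * s * K := by
                have := mul_le_mul hc.le hPL hPL0 (by positivity)
                exact this
              have : s ≤ L := by rw [hLdef]; linarith
              have h6 : τ * K * s ≤ τ * K * L := mul_le_mul_of_nonneg_left this hτK.le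
              nlinarith
            have : (d1 + w) * g ≤ 2 * g := mul_le_mul_of_nonneg_right (by linarith) hg0
            nlinarith
        have := hUA ε (d1 + w) d1 b g n1 n2 B x ξ ψ hε hd1pos (by linarith) (by linarith) hb0 hg0
          hgw (by nlinarith) (by nlinarith) (by nlinarith)
        have e1 : (d1 + w - d1) = w := by ring
        rw [e1] at this
        have hsq : 0 ≤ x ^ 2 + ξ ^ 2 + ψ ^ 2 := by positivity
        have hm : ε * d1 / 16 * (x ^ 2 + ξ ^ 2 + ψ ^ 2) ≤ ε * d1 / 8 * (x ^ 2 + ξ ^ 2 + ψ ^ 2) :=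
          mul_le_mul_of_nonneg_right (by linarith) hsq
        exact ⟨hm.trans this.1, hm.trans this.2⟩
      · push Not at hσL
        obtain ⟨m1, m2⟩ := hμ2 r s hr hs
        obtain ⟨c1, c2, c3⟩ := hσb (L / 2) (by rw [hLdef]; linarith)
        rw [max_eq_left (by positivity)] at c3
        have hB0 : 0 ≤ B := (hb1 _).2.1
        have hbe : b ≤ e / 20 := by
          rw [hbdef, div_le_iff₀ hs]
          nlinarith
        have hge : g ≤ e / 40 := by
          rw [hg, div_le_iff₀ (by positivity)]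
          have h5 : r * P (L / 2) ≤ r * (e / 40) := mul_le_mul_of_nonneg_left c1 hr.le
          have : r ≤ L := by rw [hLdef]; linarith
          nlinarith
        have hwb0 : 0 ≤ w * b := mul_nonneg w0 hb0
        have hwb1 : w * b ≤ 2 * b := mul_le_mul_of_nonneg_right (by linarith) hb0
        have hn1 := abs_le.1 k51
        have hn2 := abs_le.1 k52
        have := hZA ε (2 - nuf d1 τ 1 σ (r, s)) d1 e (B + 2 * g) (2 * g) (-B + 2 * g) B (-B + b)
          0 0 (b - w * b / 2 + n1) (b + n2) hε hd1pos (by linarith) (by linarith) hepos.le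
          (by rw [he]; linarith)
          (abs_le.2 ⟨by linarith, by linarith⟩) (abs_le.2 ⟨by linarith, by linarith⟩)
          (abs_le.2 ⟨by linarith, by linarith⟩) (abs_le.2 ⟨by linarith, by linarith⟩)
          (abs_le.2 ⟨by linarith, by linarith⟩) (by simpa using hepos.le) (by simpa using hepos.le)
          (abs_le.2 ⟨by linarith, by linarith⟩) (abs_le.2 ⟨by linarith, by linarith⟩) x ξ ψ
        have e2 : 2 - (2 - nuf d1 τ 1 σ (r, s)) = nuf d1 τ 1 σ (r, s) := by ring
        have e3 : (0 : ℝ) - 2 * ε = -2 * ε := by ring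
        rw [e2, e3] at this
        have hsq : 0 ≤ x ^ 2 + ξ ^ 2 + ψ ^ 2 := by positivity
        have hm : ε * d1 / 16 * (x ^ 2 + ξ ^ 2 + ψ ^ 2) ≤ ε * d1 / 8 * (x ^ 2 + ξ ^ 2 + ψ ^ 2) :=
          mul_le_mul_of_nonneg_right (by linarith) hsq
        exact ⟨hm.trans this.1, hm.trans this.2⟩
    · -- lower region
      have hD := hDV P P' q κ K W ε d1 τ r s hτpos (by linarith) hs hgt
      dsimp only at hD
      obtain ⟨k11, k12, k21, k22, k31, k41⟩ := hD
      refine ⟨_, _, _, _, _, _, _, k11, k21, k31, k41, ?_⟩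
      intro x ξ ψ
      rw [k12, k22, mul_div_cancel_left₀ _ hr.ne', mul_div_cancel_left₀ _ hr.ne',
        mul_div_cancel_left₀ _ hs.ne', mul_div_cancel_left₀ _ hs.ne']
      have hbox := hW3 P P' q κ K W hq1 r s hs hgt
      have hQ : 0 < P s := W.pos s hs
      have hPr : 0 < P r := W.pos r hr
      have hΔ0 : 0 ≤ Bw P r - Bw P s := by
        have h3 := hbox.hD
        have h4 : 0 ≤ 1 - s / r := by
          have : s / r ≤ 1 := (div_le_one hr).2 hgt.le
          linarith
        have h5 : 0 ≤ (Bw P r - Bw P s) / P s := h4.trans h3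
        rwa [le_div_iff₀ hQ, zero_mul] at h5
      have hBr : Bw P r ≤ K := (hb1 r).2.2.2.2.2
      have hBs0 : 0 ≤ Bw P s := (hb1 s).2.1
      have ht0 : 0 < s / r := div_pos hs hr
      have ht1 : s / r < 1 := (div_lt_one hr).2 hgt
      by_cases hσL : σ ≤ r + s
      · rw [nufV_lo hτpos (by linarith) hσ hs hgt hσL]
        exact hVA ε d1 (s / r) (P s) (P r) (Bw P r - Bw P s) (Bw P s) (2 * Aw P s / s)
          (s * P' s) K1 hε hε1 hd1pos ht0 ht1 hQ hK1pos (by linarith [W.bd s])
          (by linarith [W.bd r]) (by linarith) (by nlinarith) hbox x ξ ψ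
      · push Not at hσL
        obtain ⟨m1, m2⟩ := hμ2 r s hr hs
        obtain ⟨c1, c2, c3⟩ := hσb s (by linarith)
        obtain ⟨c4, c5, c6⟩ := hσb r (by linarith)
        rw [max_eq_left hs.le] at c3
        have hA0 : 0 ≤ Aw P s := (hb1 s).1
        have hA1 : 2 * Aw P s / s ≤ e / 20 := by
          rw [div_le_iff₀ hs]
          linarith
        have hA10 : 0 ≤ 2 * Aw P s / s := by positivity
        have hQ1 : s * P' s ≤ e / 40 := by
          have h3 := W.hi s hs
          have h4 : q * P s ≤ 1 * P s := mul_le_mul_of_nonneg_right hq1 hQ.le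
          linarith
        have hQ2 : -(e / 40) ≤ s * P' s := by
          have h3 := W.lo s hs
          have h4 : κ * P s ≤ 1 * P s :=
            mul_le_mul_of_nonneg_right (by linarith [W.κ1]) hQ.le
          linarith
        set t := s / r with ht
        set A1 := 2 * Aw P s / s with hA1def
        set Q := P s with hQdef
        set Q1 := s * P' s with hQ1def
        have n1 : |t * Q| ≤ e := by
          rw [abs_of_nonneg (by positivity)]
          have : t * Q ≤ 1 * Q := mul_le_mul_of_nonneg_right ht1.le hQ.le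
          linarith
        have n2 : |t ^ 2 * (A1 - Q)| ≤ e := by
          have h3 : t ^ 2 ≤ 1 := by nlinarith
          have h4 : |A1 - Q| ≤ e := abs_le.2 ⟨by linarith, by linarith⟩
          rw [abs_mul, abs_of_nonneg (by positivity : (0:ℝ) ≤ t ^ 2)]
          calc t ^ 2 * |A1 - Q| ≤ 1 * e := mul_le_mul h3 h4 (abs_nonneg _) zero_le_one
            _ = e := one_mul e
        have n3 : |2 * A1 + (1 - 2 * t) * (A1 - Q) + (1 - t) * (Q - Q1)| ≤ e := by
          have h3 : |(1 - 2 * t) * (A1 - Q)| ≤ e / 20 := by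
            rw [abs_mul]
            have h4 : |1 - 2 * t| ≤ 1 := abs_le.2 ⟨by linarith, by linarith⟩
            have h5 : |A1 - Q| ≤ e / 20 := abs_le.2 ⟨by linarith, by linarith⟩
            calc |1 - 2 * t| * |A1 - Q| ≤ 1 * (e / 20) :=
                  mul_le_mul h4 h5 (abs_nonneg _) zero_le_one
              _ = e / 20 := one_mul _
          have h6 : |(1 - t) * (Q - Q1)| ≤ e / 20 := by
            rw [abs_mul]
            have h4 : |1 - t| ≤ 1 := abs_le.2 ⟨by linarith, by linarith⟩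
            have h5 : |Q - Q1| ≤ e / 20 := abs_le.2 ⟨by linarith, by linarith⟩
            calc |1 - t| * |Q - Q1| ≤ 1 * (e / 20) :=
                  mul_le_mul h4 h5 (abs_nonneg _) zero_le_one
              _ = e / 20 := one_mul _
          have h3' := abs_le.1 h3
          have h6' := abs_le.1 h6
          exact abs_le.2 ⟨by linarith, by linarith⟩
        have := hZA ε (2 - nuf d1 τ 1 σ (r, s)) d1 e (Bw P s + (Bw P r - Bw P s) + P r) 0
          (-Bw P s + Q) (Bw P s + (Bw P r - Bw P s)) (-Bw P s + A1)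
          (-P r) (t * Q) (t ^ 2 * (A1 - Q))
          (2 * A1 + (1 - 2 * t) * (A1 - Q) + (1 - t) * (Q - Q1))
          hε hd1pos (by linarith) (by linarith) hepos.le
          (by rw [he]; linarith)
          (abs_le.2 ⟨by linarith, by linarith⟩) (by simpa using hepos.le)
          (abs_le.2 ⟨by linarith, by linarith⟩) (abs_le.2 ⟨by linarith, by linarith⟩)
          (abs_le.2 ⟨by linarith, by linarith⟩) (abs_le.2 ⟨by linarith, by linarith⟩)
          n1 n2 n3 x ξ ψ
        have e2 : 2 - (2 - nuf d1 τ 1 σ (r, s)) = nuf d1 τ 1 σ (r, s) := by ring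
        rw [e2] at this
        have hsq : 0 ≤ x ^ 2 + ξ ^ 2 + ψ ^ 2 := by positivity
        have hm : ε * d1 / 16 * (x ^ 2 + ξ ^ 2 + ψ ^ 2) ≤ ε * d1 / 8 * (x ^ 2 + ξ ^ 2 + ψ ^ 2) :=
          mul_le_mul_of_nonneg_right (by linarith) hsq
        exact ⟨hm.trans this.1, hm.trans this.2⟩
  obtain ⟨K'', hA⟩ := hP6 (UV P ε) (p1V P ε) (p2V P) (MV P ε) (NV P ε d1 τ)
    (nuf d1 τ 1 σ) (1 - d1 / 2) τ K' (ε * d1 / 16) (by positivity) hτpos hU1 hU2 hK'1 hK'2 hU3 hU4
    hE1 hE2 hμu hμb key
  exact ⟨_, _, _, _, _, by linarith, by linarith, by positivity, hA⟩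

end Helper85.NF
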