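import Pool.Agent.Helper87.NF.StD
import Pool.Agent.Helper85.IE.ToHyp

/-!
# Modules D5a, D5b, D5c, D6 (helper85)
-/

set_option autoImplicit false
set_option maxSynthPendingDepth 3

open MeasureTheory Complex Filter Topology
open scoped ENNReal NNReal ComplexConjugate ContDiff

noncomputable section

namespace Helper85.NF

open Helper87.NF

theorem d5a : StD5a := by
  intro p r s hp hr hs
  rcases eq_or_lt_of_le hp with h | h
  · subst h
    have e1 : (2 : ℝ) ^ ((2 : ℝ) - 2) = 1 := by norm_num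
    have e2 : ((2 : ℝ) - 1) ^ ((2 : ℝ) - 1) = 1 := by norm_num
    have e3 : (r + s) ^ ((2 : ℝ) - 1) = r + s := by
      rw [show (2 : ℝ) - 1 = 1 by norm_num, Real.rpow_one]
    have e4 : ((2 : ℝ) - 1) ^ (2 : ℝ) = 1 := by norm_num
    have e5 : r ^ (2 : ℝ) = r ^ 2 := by exact_mod_cast Real.rpow_natCast r 2
    have e6 : s ^ (2 : ℝ) = s ^ 2 := by exact_mod_cast Real.rpow_natCast s 2
    rw [e1, e2, e3, e4, e5, e6]
    apply le_of_eq
    ring
  · exact Helper85.IE.burk p r s h hr hs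

theorem VV_eq (p r s : ℝ) : VV p (r, s) = Helper85.IE.UV p r s := by
  rw [VV, Helper85.IE.UV, Helper85.IE.UB]
  by_cases h : s < r
  · rw [if_pos h, if_neg (not_le.2 h)]
  · rw [if_neg h, if_pos (not_lt.1 h)]

theorem VH_eq (p r s : ℝ) : VH p (r, s) = Helper85.IE.UH p r s := rfl

theorem d5b : StD5b := by
  intro p r s hp hp3 hr hs
  rw [VV_eq]
  exact Helper85.IE.majV p r s hp hp3 hr hs

theorem d5c : StD5c := by
  intro p r s hp hr hs
  rw [VH_eq]
  exact Helper85.IE.majH p r s hp hr hs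

theorem dz_eq : Helper87.NF.dz = Helper85.IE.dz := by
  funext φ z
  rw [Helper87.NF.dz, Helper85.IE.dz]
  ring

theorem dzb_eq : Helper87.NF.dzb = Helper85.IE.dzb := by
  funext φ z
  rw [Helper87.NF.dzb, Helper85.IE.dzb]
  ring

theorem cont_fd (φ : ℂ → ℂ) (hφ : ContDiff ℝ 1 φ) : Continuous (fderiv ℝ φ) :=
  hφ.continuous_fderiv one_ne_zero

theorem dz_cont1 (φ : ℂ → ℂ) (hφ : ContDiff ℝ 1 φ) : Continuous (Helper87.NF.dz φ) := by
  have h := cont_fd φ hφ
  unfold Helper87.NF.dz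
  fun_prop

theorem dzb_cont1 (φ : ℂ → ℂ) (hφ : ContDiff ℝ 1 φ) : Continuous (Helper87.NF.dzb φ) := by
  have h := cont_fd φ hφ
  unfold Helper87.NF.dzb
  fun_prop

theorem cont_UB (p : ℝ) (hp : 2 < p) :
    Continuous (fun x : ℝ × ℝ => ((p - 1) * x.1 - x.2) * (x.1 + x.2) ^ (p - 1)) := by
  have h1 : Continuous (fun x : ℝ × ℝ => (x.1 + x.2) ^ (p - 1)) :=
    (by fun_prop : Continuous fun x : ℝ × ℝ => x.1 + x.2).rpow_const
      fun x => Or.inr (by linarith)
  fun_prop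

theorem cont_VH (p : ℝ) (hp : 2 < p) : Continuous (VH p) := by
  have h1 := cont_UB p hp
  have h2 : Continuous (fun x : ℝ × ℝ => (max (x.1 - x.2) 0) ^ p) :=
    (by fun_prop : Continuous fun x : ℝ × ℝ => max (x.1 - x.2) 0).rpow_const
      fun x => Or.inr (by linarith)
  unfold VH
  fun_prop

theorem cont_VV (p : ℝ) (hp : 2 < p) :
    ContinuousOn (VV p) {x : ℝ × ℝ | 0 ≤ x.1 ∧ 0 ≤ x.2} := by
  have h1 := cont_UB p hp
  have h2 : Continuous (fun x : ℝ × ℝ => 2 ^ (p - 2) * ((p - 1) * x.1 ^ p - (3 - p) * x.2 ^ p)) := by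
    have g1 : Continuous (fun x : ℝ × ℝ => x.1 ^ p) :=
      continuous_fst.rpow_const fun x => Or.inr (by linarith)
    have g2 : Continuous (fun x : ℝ × ℝ => x.2 ^ p) :=
      continuous_snd.rpow_const fun x => Or.inr (by linarith)
    fun_prop
  have e : VV p = fun x : ℝ × ℝ => if x.2 < x.1 then
      2 ^ (p - 2) * ((p - 1) * x.1 ^ p - (3 - p) * x.2 ^ p) else
      ((p - 1) * x.1 - x.2) * (x.1 + x.2) ^ (p - 1) := rfl
  rw [e]
  refine ContinuousOn.if ?_ h2.continuousOn h1.continuousOn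
  rintro ⟨a, b⟩ ⟨⟨ha, _⟩, hf⟩
  have hab : b = a := by
    have := frontier_lt_subset_eq (f := fun x : ℝ × ℝ => x.2) (g := fun x : ℝ × ℝ => x.1)
      continuous_snd continuous_fst hf
    exact this
  subst hab
  simp only at ha ⊢
  rcases eq_or_lt_of_le ha with h0 | h0
  · rw [← h0, Real.zero_rpow (by linarith : p ≠ 0), add_zero,
      Real.zero_rpow (by linarith : p - 1 ≠ 0)]
    ring
  · have e1 : (b + b) ^ (p - 1) = 2 ^ (p - 1) * b ^ (p - 1) := by
      rw [← two_mul, Real.mul_rpow (by norm_num) h0.le]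
    have e2 : (2 : ℝ) ^ (p - 1) = 2 ^ (p - 2) * 2 := by
      rw [show p - 1 = (p - 2) + 1 by ring, Real.rpow_add_one (by norm_num)]
    have e3 : b ^ p = b ^ (p - 1) * b := by
      rw [← Real.rpow_add_one h0.ne']
      congr 1
      ring
    rw [e1, e2, e3]
    ring

theorem supp_comp (φ : ℂ → ℂ) (hc : HasCompactSupport φ) (V : ℝ × ℝ → ℝ) (h0 : V (0, 0) = 0) :
    HasCompactSupport (fun z => V (‖Helper87.NF.dzb φ z‖, ‖Helper87.NF.dz φ z‖)) := by
  have h : HasCompactSupport (fderiv ℝ φ) := hc.fderiv ℝ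
  refine h.mono' ?_
  refine fun z hz => ?_
  refine subset_closure ?_
  intro h1
  apply hz
  simp [Helper87.NF.dz, Helper87.NF.dzb, h1, h0]

theorem d6 (h4 : StD4) : StD6 := by
  intro p hp φ hφ hc
  have h0 : 0 < p := by linarith
  have ha := Helper85.IE.a0_pos p hp
  have cz := dz_cont1 φ hφ
  have czb := dzb_cont1 φ hφ
  have sz : HasCompactSupport (Helper87.NF.dz φ) := by rw [dz_eq]; exact Helper85.IE.dz_supp φ hc
  have szb : HasCompactSupport (Helper87.NF.dzb φ) := by rw [dzb_eq]; exact Helper85.IE.dzb_supp φ hc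
  have i1 := Helper85.IE.int_pow p h0 (Helper87.NF.dz φ) cz sz
  have i2 := Helper85.IE.int_pow p h0 (Helper87.NF.dzb φ) czb szb
  have main : ∀ V : ℝ × ℝ → ℝ, ContinuousOn V {x : ℝ × ℝ | 0 ≤ x.1 ∧ 0 ≤ x.2} → V (0, 0) = 0 →
      (∀ r s : ℝ, 0 ≤ r → 0 ≤ s → Helper85.IE.a0 p * V (r, s) ≤ (p - 1) ^ p * r ^ p - s ^ p) →
      0 ≤ ∫ z, V (‖Helper87.NF.dzb φ z‖, ‖Helper87.NF.dz φ z‖) →
      ∫ z, ‖Helper87.NF.dz φ z‖ ^ p ≤ (p - 1) ^ p * ∫ z, ‖Helper87.NF.dzb φ z‖ ^ p := by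
    intro V hV hV0 hm hn
    have hi : Integrable (fun z => V (‖Helper87.NF.dzb φ z‖, ‖Helper87.NF.dz φ z‖)) := by
      refine Continuous.integrable_of_hasCompactSupport ?_ (supp_comp φ hc V hV0)
      refine hV.comp_continuous (czb.norm.prodMk cz.norm) fun z => ?_
      exact ⟨norm_nonneg _, norm_nonneg _⟩
    have e1 : ∫ z, Helper85.IE.a0 p * V (‖Helper87.NF.dzb φ z‖, ‖Helper87.NF.dz φ z‖) ≤
        ∫ z, ((p - 1) ^ p * ‖Helper87.NF.dzb φ z‖ ^ p - ‖Helper87.NF.dz φ z‖ ^ p) := by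
      refine integral_mono (hi.const_mul _) ((i2.const_mul _).sub i1) fun z => ?_
      exact hm _ _ (norm_nonneg _) (norm_nonneg _)
    rw [integral_const_mul, integral_sub (i2.const_mul _) i1, integral_const_mul] at e1
    have e2 := mul_nonneg ha.le hn
    linarith
  obtain ⟨hA, hB⟩ := h4 p hp φ hφ hc
  rcases le_total p 3 with h3 | h3
  · refine main (VV p) (cont_VV p hp) ?_ (fun r s hr hs => ?_) (hA h3)
    · rw [VV]
      simp [Real.zero_rpow (by linarith : p - 1 ≠ 0)]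
    · exact d5b p r s hp h3 hr hs
  · refine main (VH p) (cont_VH p hp).continuousOn ?_ (fun r s hr hs => ?_) hB
    · rw [VH]
      simp [Real.zero_rpow (by linarith : p - 1 ≠ 0), Real.zero_rpow (by linarith : p ≠ 0)]
    · exact d5c p r s h3 hr hs

/-- the norm inequality for test functions -/
theorem hyp_of_d6 (h6 : StD6) (p : ℝ) (hp : 2 < p) : Helper85.IE.Hyp p (p - 1) := by
  intro φ hφ hc
  have h0 : 0 < p := by linarith
  have h1 : 0 < p - 1 := by linarith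
  have key := h6 p hp φ (hφ.of_le (by exact_mod_cast le_top)) hc
  rw [dz_eq, dzb_eq] at key
  rw [Helper85.IE.lint_pow p h0 _ (Helper85.IE.dz_cont φ hφ) (Helper85.IE.dz_supp φ hc),
    Helper85.IE.lint_pow p h0 _ (Helper85.IE.dzb_cont φ hφ) (Helper85.IE.dzb_supp φ hc)]
  have e3 : ENNReal.ofReal (p - 1) = (ENNReal.ofReal ((p - 1) ^ p)) ^ (1 / p) := by
    rw [ENNReal.ofReal_rpow_of_nonneg (Real.rpow_nonneg h1.le _) (by positivity),
      ← Real.rpow_mul h1.le, mul_one_div_cancel h0.ne', Real.rpow_one]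
  rw [e3, ← ENNReal.mul_rpow_of_nonneg _ _ (by positivity)]
  refine ENNReal.rpow_le_rpow ?_ (by positivity)
  rw [← ENNReal.ofReal_mul (Real.rpow_nonneg h1.le _)]
  exact ENNReal.ofReal_le_ofReal key

end Helper85.NF
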