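import Pool.Agent.Helper87.NF.StC

/-!
# Module DV: second derivatives, lower region, V-type (helper85)
-/

set_option autoImplicit false
set_option maxSynthPendingDepth 3

open MeasureTheory Complex Filter Topology
open scoped ENNReal NNReal ComplexConjugate

noncomputable section

namespace Helper85.NF

open Helper87.NF Helper85.IW

/-! calculus with `lin2` -/

theorem l_fst {f : ℝ → ℝ} {f' : ℝ} {r s : ℝ} (h : HasDerivAt f f' r) :
    HasFDerivAt (fun x : ℝ × ℝ => f x.1) (lin2 f' 0) (r, s) := by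
  have h1 := h.comp_hasFDerivAt (r, s) (hasFDerivAt_fst (𝕜 := ℝ) (E := ℝ) (F := ℝ) (p := (r, s)))
  refine h1.congr_fderiv ?_
  ext <;> simp [lin2_apply]

theorem l_snd {f : ℝ → ℝ} {f' : ℝ} {r s : ℝ} (h : HasDerivAt f f' s) :
    HasFDerivAt (fun x : ℝ × ℝ => f x.2) (lin2 0 f') (r, s) := by
  have h1 := h.comp_hasFDerivAt (r, s) (hasFDerivAt_snd (𝕜 := ℝ) (E := ℝ) (F := ℝ) (p := (r, s)))
  refine h1.congr_fderiv ?_
  ext <;> simp [lin2_apply]

theorem l_add {f g : ℝ × ℝ → ℝ} {a b c d : ℝ} {x : ℝ × ℝ} (hf : HasFDerivAt f (lin2 a b) x)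
    (hg : HasFDerivAt g (lin2 c d) x) :
    HasFDerivAt (fun x => f x + g x) (lin2 (a + c) (b + d)) x := by
  refine (hf.add hg).congr_fderiv ?_
  ext <;> simp [lin2_apply]

theorem l_sub {f g : ℝ × ℝ → ℝ} {a b c d : ℝ} {x : ℝ × ℝ} (hf : HasFDerivAt f (lin2 a b) x)
    (hg : HasFDerivAt g (lin2 c d) x) :
    HasFDerivAt (fun x => f x - g x) (lin2 (a - c) (b - d)) x := by
  refine (hf.sub hg).congr_fderiv ?_
  ext <;> simp [lin2_apply]

theorem l_mul {f g : ℝ × ℝ → ℝ} {a b c d : ℝ} {x : ℝ × ℝ} (hf : HasFDerivAt f (lin2 a b) x)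
    (hg : HasFDerivAt g (lin2 c d) x) :
    HasFDerivAt (fun x => f x * g x) (lin2 (a * g x + f x * c) (b * g x + f x * d)) x := by
  refine (hf.mul hg).congr_fderiv ?_
  ext <;> simp [lin2_apply] <;> ring

theorem l_const (k : ℝ) (x : ℝ × ℝ) : HasFDerivAt (fun _ : ℝ × ℝ => k) (lin2 0 0) x := by
  refine (hasFDerivAt_const k x).congr_fderiv ?_
  ext <;> simp [lin2_apply]

theorem l_smul {f : ℝ × ℝ → ℝ} {a b : ℝ} {x : ℝ × ℝ} (k : ℝ) (hf : HasFDerivAt f (lin2 a b) x) :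
    HasFDerivAt (fun x => k * f x) (lin2 (k * a) (k * b)) x := by
  have h := l_mul (l_const k x) hf
  simpa using h

theorem l_comp {f : ℝ → ℝ} {g : ℝ × ℝ → ℝ} {f' a b : ℝ} {x : ℝ × ℝ}
    (hf : HasDerivAt f f' (g x)) (hg : HasFDerivAt g (lin2 a b) x) :
    HasFDerivAt (fun x => f (g x)) (lin2 (f' * a) (f' * b)) x := by
  refine (hf.comp_hasFDerivAt x hg).congr_fderiv ?_
  ext <;> simp [lin2_apply]

theorem l_congr {f : ℝ × ℝ → ℝ} {a b a' b' : ℝ} {x : ℝ × ℝ} (hf : HasFDerivAt f (lin2 a b) x)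
    (h1 : a = a') (h2 : b = b') : HasFDerivAt f (lin2 a' b') x := by
  rw [← h1, ← h2]; exact hf

theorem dv (h1 : StW1) : StDV := by
  intro P P' q κ K H ε d1 τ r s hτ0 hτ1 hs hr
  obtain ⟨dA, dC, dM, dB, -, -⟩ := h1 P P' q κ K H
  have hr0 : 0 < r := hs.trans hr
  have hnb : ∀ᶠ x : ℝ × ℝ in 𝓝 (r, s), x.2 < x.1 :=
    (isOpen_lt continuous_snd continuous_fst).mem_nhds hr
  have hnb2 : ∀ᶠ x : ℝ × ℝ in 𝓝 (r, s), τ * x.2 < x.1 := by
    refine (isOpen_lt (continuous_const.mul continuous_snd) continuous_fst).mem_nhds ?_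
    show τ * s < r
    nlinarith
  -- basic derivatives
  have x1 : HasFDerivAt (fun x : ℝ × ℝ => x.1) (lin2 1 0) (r, s) := l_fst (f := id) (hasDerivAt_id r)
  have x2 : HasFDerivAt (fun x : ℝ × ℝ => x.2) (lin2 0 1) (r, s) := l_snd (f := id) (hasDerivAt_id s)
  have B1 : HasFDerivAt (fun x : ℝ × ℝ => Bw P x.1) (lin2 (P r / r) 0) (r, s) := l_fst (dB r hr0)
  have B2 : HasFDerivAt (fun x : ℝ × ℝ => Bw P x.2) (lin2 0 (P s / s)) (r, s) := l_snd (dB s hs)
  have A2 : HasFDerivAt (fun x : ℝ × ℝ => Aw P x.2) (lin2 0 (P s)) (r, s) := l_snd (dA s)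
  have M1 : HasFDerivAt (fun x : ℝ × ℝ => Mw P x.1) (lin2 (r * P r) 0) (r, s) := l_fst (dM r)
  have M2 : HasFDerivAt (fun x : ℝ × ℝ => Mw P x.2) (lin2 0 (s * P s)) (r, s) := l_snd (dM s)
  have C2 : HasFDerivAt (fun x : ℝ × ℝ => Cw P x.2) (lin2 0 (Aw P s)) (r, s) := l_snd (dC s)
  have P2 : HasFDerivAt (fun x : ℝ × ℝ => P x.2) (lin2 0 (P' s)) (r, s) := l_snd (H.der s hs)
  have i1 : HasFDerivAt (fun x : ℝ × ℝ => (x.1)⁻¹) (lin2 (-(r ^ 2)⁻¹) 0) (r, s) :=
    l_fst (hasDerivAt_inv hr0.ne')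
  refine ⟨?_, ?_, ?_, ?_, ?_, ?_⟩
  · have h := l_add (l_mul x1 B1) (l_smul (2 * ε) x1)
    have e : p1V P ε =ᶠ[𝓝 (r, s)] fun x => x.1 * Bw P x.1 + 2 * ε * x.1 := by
      filter_upwards [hnb] with x hx
      rw [p1V, if_pos hx]
    refine (l_congr h ?_ ?_).congr_of_eventuallyEq e
    · simp only
      field_simp
      ring
    · simp
  · rw [p1V, if_pos hr]
    field_simp
    ring
  · have h := l_add (l_smul (-1) (l_mul x2 B2)) (l_smul 2 A2)
    have e : p2V P =ᶠ[𝓝 (r, s)] fun x => -1 * (x.2 * Bw P x.2) + 2 * Aw P x.2 := by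
      filter_upwards [hnb] with x hx
      rw [p2V, if_pos hx]
      ring
    refine (l_congr h ?_ ?_).congr_of_eventuallyEq e
    · simp
    · simp only
      field_simp
      ring
  · rw [p2V, if_pos hr]
    field_simp
  · have h := l_sub (l_smul (-1) (l_sub M1 M2)) (l_smul ε (l_mul x1 x1))
    have e : MV P ε =ᶠ[𝓝 (r, s)] fun x => -1 * (Mw P x.1 - Mw P x.2) - ε * (x.1 * x.1) := by
      filter_upwards [hnb] with x hx
      rw [MV, if_pos hx]
      ring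
    refine (l_congr h ?_ ?_).congr_of_eventuallyEq e
    · simp only
      ring
    · simp only
      field_simp
      ring
  · have h := l_add (l_add (l_smul 4 C2) (l_mul (l_mul x2 (l_sub (l_const 1 _) (l_mul x2 i1)))
      (l_sub (l_smul 2 A2) (l_mul x2 P2)))) (l_smul ε (l_mul x2 x2))
    have e : NV P ε d1 τ =ᶠ[𝓝 (r, s)] fun x => 4 * Cw P x.2 +
        x.2 * (1 - x.2 * (x.1)⁻¹) * (2 * Aw P x.2 - x.2 * P x.2) + ε * (x.2 * x.2) := by
      filter_upwards [hnb, hnb2] with x hx hx2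
      rw [NV, if_pos hx, Helper87.NF.cmp, max_eq_right (by linarith)]
      rw [div_eq_mul_inv x.2 x.1]
      ring
    refine (l_congr h ?_ ?_).congr_of_eventuallyEq e
    · simp only
      field_simp
      ring
    · simp only
      field_simp
      ring

end Helper85.NF
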