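import Pool.Agent.Helper52.NF.St

set_option autoImplicit false

/-! Project NF (MP_dd34a0_co), module MJ (helper85 for helper52): minimal joins. -/

namespace Pool.Agent.Helper85.NF

open Pool.Agent.Helper52.NF Finset

theorem hMJ : StMJ := by
  classical
  intro ε N _ _ α β E J₀ hJ₀
  have hne : (E.powerset.filter (fun J => ∀ x, bd α β J x = bd α β J₀ x)).Nonempty :=
    ⟨J₀, by
      rw [Finset.mem_filter, Finset.mem_powerset]
      exact ⟨hJ₀, fun _ => rfl⟩⟩
  obtain ⟨J, hJ, hmin⟩ := Finset.exists_min_image
    (E.powerset.filter (fun J => ∀ x, bd α β J x = bd α β J₀ x)) (fun J => J.card) hne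
  rw [Finset.mem_filter, Finset.mem_powerset] at hJ
  refine ⟨J, ⟨hJ.1, ?_⟩, hJ.2⟩
  intro C hC hC0
  have h1 := hmin (symmDiff J C) (by
    rw [Finset.mem_filter, Finset.mem_powerset]
    refine ⟨?_, ?_⟩
    · intro e he
      rw [Finset.mem_symmDiff] at he
      rcases he with he | he
      · exact hJ.1 he.1
      · exact hC he.1
    · intro x
      rw [bd_symmDiff, hC0, add_zero, hJ.2])
  have h2 : (symmDiff J C).card = (J \ C).card + (C \ J).card := by
    have h3 : symmDiff J C = (J \ C) ∪ (C \ J) := rfl
    rw [h3, Finset.card_union_of_disjoint]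
    rw [Finset.disjoint_left]
    intro e
    simp only [Finset.mem_sdiff]
    tauto
  have h3 := Finset.card_sdiff_add_card_inter J C
  have h4 := Finset.card_sdiff_add_card_inter C J
  have h5 : (J ∩ C).card = (C ∩ J).card := by rw [Finset.inter_comm]
  have h1' : J.card ≤ (symmDiff J C).card := h1
  unfold wt
  omega

end Pool.Agent.Helper85.NF
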