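import Pool.Agent.Helper52.NF.St

set_option autoImplicit false

/-! Project NF (MP_dd34a0_co), module TJ (helper85 for helper52): joins exist. -/

namespace Pool.Agent.Helper85.NF

open Pool.Agent.Helper52.NF Finset

theorem sum_pt {N : Type} [DecidableEq N] [Fintype N] (a : N) : ∑ v, pt a v = 1 := by
  unfold pt
  rw [Finset.sum_ite_eq' Finset.univ a (fun _ => (1 : ZMod 2))]
  simp

theorem hTJ : StTJ := by
  intro ε N _ _ _ α β E T hconn
  have key : ∀ k : ℕ, ∀ T : N → ZMod 2, (univ.filter (fun v => T v ≠ 0)).card = k →
      ∑ v, T v = 0 → ∃ J ⊆ E, ∀ x, bd α β J x = T x := by
    intro k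
    induction k using Nat.strong_induction_on with
    | _ k ih =>
      intro T hk hs
      by_cases h0 : ∀ v, T v = 0
      · exact ⟨∅, empty_subset _, fun x => by rw [bd_empty, h0]⟩
      · push Not at h0
        obtain ⟨a, ha⟩ := h0
        have ha1 : T a = 1 := zne ha
        have hb : ∃ b, b ≠ a ∧ T b ≠ 0 := by
          by_contra hc
          push Not at hc
          have h1 : ∑ v, T v = T a :=
            Finset.sum_eq_single a (fun b _ hb => hc b hb) (fun h => absurd (mem_univ a) h)
          rw [hs] at h1
          exact ha h1.symm
        obtain ⟨b, hba, hb⟩ := hb
        have hb1 : T b = 1 := zne hb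
        obtain ⟨P, hP, hPx⟩ := hconn a b
        have hTa : T a + pt a a + pt b a = 0 := by
          rw [ha1, pt_self, pt_ne (Ne.symm hba), add_zero]
          exact zz 1
        have hTb : T b + pt a b + pt b b = 0 := by
          rw [hb1, pt_self, pt_ne hba, add_zero]
          exact zz 1
        have hlt : (univ.filter (fun v => T v + pt a v + pt b v ≠ 0)).card < k := by
          rw [← hk]
          apply Finset.card_lt_card
          rw [Finset.ssubset_iff_of_subset]
          · refine ⟨a, ?_, ?_⟩
            · rw [Finset.mem_filter]
              exact ⟨mem_univ _, ha⟩
            · rw [Finset.mem_filter]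
              intro h
              exact h.2 hTa
          · intro v hv
            rw [Finset.mem_filter] at hv ⊢
            refine ⟨mem_univ _, ?_⟩
            have hva : v ≠ a := by
              intro h
              apply hv.2
              rw [h]
              exact hTa
            have hvb : v ≠ b := by
              intro h
              apply hv.2
              rw [h]
              exact hTb
            intro h
            apply hv.2
            rw [h, pt_ne hva, pt_ne hvb]
            simp
        have hsum : ∑ v, (T v + pt a v + pt b v) = 0 := by
          rw [Finset.sum_add_distrib, Finset.sum_add_distrib, hs, sum_pt, sum_pt, zero_add]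
          exact zz 1
        obtain ⟨J', hJ', hJx⟩ := ih _ hlt (fun v => T v + pt a v + pt b v) rfl hsum
        refine ⟨symmDiff J' P, ?_, ?_⟩
        · intro e he
          rw [Finset.mem_symmDiff] at he
          rcases he with he | he
          · exact hJ' he.1
          · exact hP he.1
        · intro x
          rw [bd_symmDiff, hJx, hPx]
          have h1 := zz (pt a x)
          have h2 := zz (pt b x)
          linear_combination h1 + h2
  exact key _ T rfl

end Pool.Agent.Helper85.NF
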