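import Pool.Agent.Helper87.NF.StC

/-!
# Module VA: V-type lower region (helper85)
-/

set_option autoImplicit false
set_option maxHeartbeats 4000000

noncomputable section

namespace Helper85.NF

open Helper87.NF Helper85.IE

theorem va_quad (a c ε d1 K x y : ℝ) (hε : 0 < ε) (hd : 0 < d1)
    (ha0 : 0 ≤ a) (ha : a ≤ d1 / 2) (hc : |c| ≤ 13 / 4 * K)
    (hdK : d1 * (1000 * K ^ 2) ≤ ε ^ 2) :
    0 ≤ (ε / 8) * x ^ 2 + (a * c) * (x * y) + (ε * d1 / 16) * y ^ 2 := by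
  refine quad2 _ _ _ _ _ (by positivity) (by positivity) ?_
  have h1 : a ^ 2 ≤ (d1 / 2) ^ 2 := by nlinarith
  have h2 : c ^ 2 ≤ (13 / 4 * K) ^ 2 := by
    rw [← sq_abs c]
    exact pow_le_pow_left₀ (abs_nonneg _) hc 2
  have h3 : a ^ 2 * c ^ 2 ≤ (d1 / 2) ^ 2 * (13 / 4 * K) ^ 2 :=
    mul_le_mul h1 h2 (sq_nonneg _) (sq_nonneg _)
  have h4 : d1 * (d1 * (1000 * K ^ 2)) ≤ d1 * ε ^ 2 := mul_le_mul_of_nonneg_left hdK hd.le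
  have h5 : 0 ≤ d1 * (d1 * K ^ 2) := by positivity
  calc (a * c) ^ 2 = a ^ 2 * c ^ 2 := by ring
    _ ≤ (d1 / 2) ^ 2 * (13 / 4 * K) ^ 2 := h3
    _ ≤ 4 * (ε / 8) * (ε * d1 / 16) := by nlinarith

theorem va_quad' (a c ε d1 K x y : ℝ) (hε : 0 < ε) (hd : 0 < d1) (hd1 : d1 ≤ 1)
    (ha0 : 0 ≤ a) (ha : a ≤ d1 / 2) (hc : |c| ≤ 13 / 4 * K)
    (hdK : d1 * (1000 * K ^ 2) ≤ ε ^ 2) :
    0 ≤ (ε / 8) * x ^ 2 + (a * c) * (x * y) + (ε / 8) * y ^ 2 := by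
  have h := va_quad a c ε d1 K x y hε hd ha0 ha hc hdK
  have : (ε * d1 / 16) * y ^ 2 ≤ (ε / 8) * y ^ 2 :=
    mul_le_mul_of_nonneg_right (by nlinarith) (sq_nonneg _)
  linarith

theorem va_plus (ε d1 t Q Pr Δ Bs A1 Q1 K x ξ ψ a : ℝ) (hε : 0 < ε) (hd : 0 < d1)
    (ht0 : 0 < t) (ht1 : t < 1) (hdε : d1 ≤ 1) (ha : a = d1 * t / 2) (haK : a * K ≤ ε / 2)
    (hQ : 0 < Q) (hQK : Q ≤ K) (hPK : Pr ≤ K) (hΔK : Δ ≤ K) (hdK : d1 * (1000 * K ^ 2) ≤ ε ^ 2)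
    (hΔ0 : 0 ≤ Δ) (hP0 : 0 ≤ Pr) (hA0 : Q ≤ A1) (hA1 : A1 ≤ 9 / 4 * Q)
    (HP : 0 ≤ Δ * (x + ξ) ^ 2 + Δ * t * (x + ξ) * (x + ψ) +
      (1 + t) * (Pr * x ^ 2 + Q * (x + ξ) ^ 2) +
      (2 * (1 + t) * Q + 2 * (1 - t) * (A1 - Q) + (1 - t) * (Q - Q1)) * (x + ξ) * ψ +
      t * (Pr - Q - (A1 - Q) * (1 - t)) * x * ψ +
      (2 * Q + 3 * (1 - t) * (A1 - Q) + (1 - t) * (Q - Q1)) * ψ ^ 2) :
    ε * d1 / 16 * (x ^ 2 + ξ ^ 2 + ψ ^ 2) ≤ FP ((2 - d1) * t) (Bs + Δ + Pr + 2 * ε) 0 (-Bs + Q)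
    (Bs + Δ + 2 * ε) (-Bs + A1) (-Pr - 2 * ε) (t * Q) (t ^ 2 * (A1 - Q))
    (2 * A1 + (1 - 2 * t) * (A1 - Q) + (1 - t) * (Q - Q1) + 2 * ε) x ξ ψ := by
  have ha0 : 0 ≤ a := by rw [ha]; positivity
  have ha1 : a ≤ d1 / 2 := by
    rw [ha]
    have : d1 * t ≤ d1 * 1 := mul_le_mul_of_nonneg_left ht1.le hd.le
    linarith
  have h1t : 0 ≤ 1 - t := by linarith
  have hd2 : 0 ≤ 1 - d1 / 2 := by linarith
  have q1 := va_quad a (Δ + A1 - Pr) ε d1 K x ψ hε hd ha0 ha1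
    (by rw [abs_le]; constructor <;> linarith) hdK
  have q2 := va_quad a (-(Δ + Q)) ε d1 K (x + ξ + ψ) ψ hε hd ha0 ha1
    (by rw [abs_le]; constructor <;> linarith) hdK
  have q3 := va_quad' a (-(Δ + Q)) ε d1 K x (x + ξ + ψ) hε hd hdε ha0 ha1
    (by rw [abs_le]; constructor <;> linarith) hdK
  have r1 : 0 ≤ (ε / 2 - a * Pr) * x ^ 2 := by
    refine mul_nonneg ?_ (sq_nonneg _)
    have : a * Pr ≤ a * K := mul_le_mul_of_nonneg_left hPK ha0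
    linarith
  have r2 : 0 ≤ a * (Δ + A1) * ψ ^ 2 := by
    have : 0 ≤ Δ + A1 := by linarith
    positivity
  have r4 : 0 ≤ ε * (t * (1 - d1 / 2)) * (x ^ 2 + (x + ξ + ψ) ^ 2) := by positivity
  have r5 : 0 ≤ ε * (x + ξ + ψ) ^ 2 := by positivity
  have r6 : 0 ≤ ε * d1 * t * (ξ ^ 2 + ψ ^ 2) := by positivity
  have r7 : 0 ≤ ε * d1 * (1 - t) * (ξ ^ 2 + ψ ^ 2) := by positivity
  have r8 : ε * d1 * (1 - t) * (ξ ^ 2 + ψ ^ 2) ≤ ε * (1 - t) * (ξ ^ 2 + ψ ^ 2) := by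
    have h1 : 0 ≤ ε * (1 - t) * (ξ ^ 2 + ψ ^ 2) := by positivity
    have := mul_le_mul_of_nonneg_right hdε h1
    linarith
  have r9 : ε * d1 * x ^ 2 ≤ ε * x ^ 2 := by
    have h1 : 0 ≤ ε * x ^ 2 := by positivity
    have := mul_le_mul_of_nonneg_right hdε h1
    linarith
  have r10 : 0 ≤ ε * x ^ 2 := by positivity
  have r11 : 0 ≤ ε * d1 * ξ ^ 2 := by positivity
  have key : FP ((2 - d1) * t) (Bs + Δ + Pr + 2 * ε) 0 (-Bs + Q)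
      (Bs + Δ + 2 * ε) (-Bs + A1) (-Pr - 2 * ε) (t * Q) (t ^ 2 * (A1 - Q))
      (2 * A1 + (1 - 2 * t) * (A1 - Q) + (1 - t) * (Q - Q1) + 2 * ε) x ξ ψ =
      (Δ * (x + ξ) ^ 2 + Δ * t * (x + ξ) * (x + ψ) +
        (1 + t) * (Pr * x ^ 2 + Q * (x + ξ) ^ 2) +
        (2 * (1 + t) * Q + 2 * (1 - t) * (A1 - Q) + (1 - t) * (Q - Q1)) * (x + ξ) * ψ +
        t * (Pr - Q - (A1 - Q) * (1 - t)) * x * ψ +
        (2 * Q + 3 * (1 - t) * (A1 - Q) + (1 - t) * (Q - Q1)) * ψ ^ 2) +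
      ε * (x ^ 2 + (x + ξ + ψ) ^ 2) + ε * (t * (1 - d1 / 2)) * (x ^ 2 + (x + ξ + ψ) ^ 2) +
      ε * (1 - t) * (ξ ^ 2 + ψ ^ 2) + ε * (d1 * t / 2) * (ξ ^ 2 + ψ ^ 2) +
      (a * (Δ + A1 - Pr) * (x * ψ) + a * (-(Δ + Q)) * ((x + ξ + ψ) * ψ) +
        a * (-(Δ + Q)) * (x * (x + ξ + ψ)) - a * Pr * x ^ 2 + a * (Δ + A1) * ψ ^ 2) := by
    rw [FP, ha]
    ring
  rw [key]
  generalize (Δ * (x + ξ) ^ 2 + Δ * t * (x + ξ) * (x + ψ) +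
        (1 + t) * (Pr * x ^ 2 + Q * (x + ξ) ^ 2) +
        (2 * (1 + t) * Q + 2 * (1 - t) * (A1 - Q) + (1 - t) * (Q - Q1)) * (x + ξ) * ψ +
        t * (Pr - Q - (A1 - Q) * (1 - t)) * x * ψ +
        (2 * Q + 3 * (1 - t) * (A1 - Q) + (1 - t) * (Q - Q1)) * ψ ^ 2) = W at HP ⊢
  clear key
  linarith only [HP, q1, q2, q3, r1, r2, r4, r5, r6, r7, r8, r9, r10, r11]

theorem va_minus (ε d1 t Q Pr Δ Bs A1 Q1 K x ξ ψ a : ℝ) (hε : 0 < ε) (hd : 0 < d1)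
    (ht0 : 0 < t) (ht1 : t < 1) (hdε : d1 ≤ 1) (ha : a = d1 * t / 2) (haK : a * K ≤ ε / 4)
    (hQ : 0 < Q) (hQK : Q ≤ K) (hPK : Pr ≤ K) (hΔK : Δ ≤ K) (hdK : d1 * (1000 * K ^ 2) ≤ ε ^ 2)
    (hΔ0 : 0 ≤ Δ) (hP0 : 0 ≤ Pr) (hA0 : Q ≤ A1) (hA1 : A1 ≤ 9 / 4 * Q)
    (HM : 0 ≤ Δ * (x + ξ) ^ 2 - Δ * t * (x + ξ) * (x - ψ) +
      (1 - t) * (Pr * x ^ 2 + Q * (x + ξ) ^ 2) -
      (1 - t) * (3 * Q + 2 * (A1 - Q) - Q1) * (x + ξ) * ψ +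
      t * (Pr - Q - (A1 - Q) * (1 - t)) * x * ψ +
      (2 * Q + (3 - t) * (A1 - Q) + (1 - t) * (Q - Q1)) * ψ ^ 2) :
    ε * d1 / 16 * (x ^ 2 + ξ ^ 2 + ψ ^ 2) ≤ FM ((2 - d1) * t) (Bs + Δ + Pr + 2 * ε) 0 (-Bs + Q)
    (Bs + Δ + 2 * ε) (-Bs + A1) (-Pr - 2 * ε) (t * Q) (t ^ 2 * (A1 - Q))
    (2 * A1 + (1 - 2 * t) * (A1 - Q) + (1 - t) * (Q - Q1) + 2 * ε) x ξ ψ := by
  have ha0 : 0 ≤ a := by rw [ha]; positivity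
  have ha1 : a ≤ d1 / 2 := by
    rw [ha]
    have : d1 * t ≤ d1 * 1 := mul_le_mul_of_nonneg_left ht1.le hd.le
    linarith
  have h1t : 0 ≤ 1 - t := by linarith
  have hd2 : 0 ≤ 1 - d1 / 2 := by linarith
  have q1 := va_quad a (Δ + Q) ε d1 K ξ x hε hd ha0 ha1
    (by rw [abs_le]; constructor <;> linarith) hdK
  have q2 := va_quad a (A1 - Q - (Δ + Q + Pr)) ε d1 K ψ x hε hd ha0 ha1
    (by rw [abs_le]; constructor <;> linarith) hdK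
  have q3 := va_quad' a (-(Δ + Q)) ε d1 K ξ ψ hε hd hdε ha0 ha1
    (by rw [abs_le]; constructor <;> linarith) hdK
  have r1 : 0 ≤ (ε / 2 - a * (A1 - Q)) * ψ ^ 2 := by
    refine mul_nonneg ?_ (sq_nonneg _)
    have h1 : A1 - Q ≤ 5 / 4 * K := by linarith
    have : a * (A1 - Q) ≤ a * (5 / 4 * K) := mul_le_mul_of_nonneg_left h1 ha0
    linarith
  have r2 : 0 ≤ a * (Δ + Q + Pr) * x ^ 2 := by
    have : 0 ≤ Δ + Q + Pr := by linarith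
    positivity
  have r4 : 0 ≤ ε * (t * (1 - d1 / 2)) * (ξ ^ 2 + ψ ^ 2) := by positivity
  have r5 : 0 ≤ ε * (1 - t) * (x + ξ - ψ) ^ 2 := by positivity
  have r5' : 0 ≤ ε * (d1 * t / 2) * (x + ξ - ψ) ^ 2 := by positivity
  have r6 : 0 ≤ ε * d1 * t * x ^ 2 := by positivity
  have r7 : 0 ≤ ε * d1 * (1 - t) * x ^ 2 := by positivity
  have r8 : ε * d1 * (1 - t) * x ^ 2 ≤ ε * (1 - t) * x ^ 2 := by
    have h1 : 0 ≤ ε * (1 - t) * x ^ 2 := by positivity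
    have := mul_le_mul_of_nonneg_right hdε h1
    linarith
  have r9 : ε * d1 * (ξ ^ 2 + ψ ^ 2) ≤ ε * (ξ ^ 2 + ψ ^ 2) := by
    have h1 : 0 ≤ ε * (ξ ^ 2 + ψ ^ 2) := by positivity
    have := mul_le_mul_of_nonneg_right hdε h1
    linarith
  have r10 : 0 ≤ ε * (ξ ^ 2 + ψ ^ 2) := by positivity
  have r11 : 0 ≤ ε * ξ ^ 2 := by positivity
  have key : FM ((2 - d1) * t) (Bs + Δ + Pr + 2 * ε) 0 (-Bs + Q)
      (Bs + Δ + 2 * ε) (-Bs + A1) (-Pr - 2 * ε) (t * Q) (t ^ 2 * (A1 - Q))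
      (2 * A1 + (1 - 2 * t) * (A1 - Q) + (1 - t) * (Q - Q1) + 2 * ε) x ξ ψ =
      (Δ * (x + ξ) ^ 2 - Δ * t * (x + ξ) * (x - ψ) +
        (1 - t) * (Pr * x ^ 2 + Q * (x + ξ) ^ 2) -
        (1 - t) * (3 * Q + 2 * (A1 - Q) - Q1) * (x + ξ) * ψ +
        t * (Pr - Q - (A1 - Q) * (1 - t)) * x * ψ +
        (2 * Q + (3 - t) * (A1 - Q) + (1 - t) * (Q - Q1)) * ψ ^ 2) +
      ε * (ξ ^ 2 + ψ ^ 2) + ε * (t * (1 - d1 / 2)) * (ξ ^ 2 + ψ ^ 2) +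
      ε * (1 - t) * (x ^ 2 + (x + ξ - ψ) ^ 2) + ε * (d1 * t / 2) * (x ^ 2 + (x + ξ - ψ) ^ 2) +
      (a * (Δ + Q) * (ξ * x) + a * (A1 - Q - (Δ + Q + Pr)) * (ψ * x) +
        a * (-(Δ + Q)) * (ξ * ψ) - a * (A1 - Q) * ψ ^ 2 + a * (Δ + Q + Pr) * x ^ 2) := by
    rw [FM, ha]
    ring
  rw [key]
  generalize (Δ * (x + ξ) ^ 2 - Δ * t * (x + ξ) * (x - ψ) +
        (1 - t) * (Pr * x ^ 2 + Q * (x + ξ) ^ 2) -
        (1 - t) * (3 * Q + 2 * (A1 - Q) - Q1) * (x + ξ) * ψ +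
        t * (Pr - Q - (A1 - Q) * (1 - t)) * x * ψ +
        (2 * Q + (3 - t) * (A1 - Q) + (1 - t) * (Q - Q1)) * ψ ^ 2) = W at HM ⊢
  clear key
  linarith only [HM, q1, q2, q3, r1, r2, r4, r5, r5', r6, r7, r8, r9, r10, r11]

theorem va : StVA := by
  intro ε d1 t Q Pr Δ Bs A1 Q1 K hε hε1 hd ht0 ht1 hQ hK hQK hPK hΔK hdK H x ξ ψ
  have HP := vplus t (1 - t) (Δ / Q) (Pr / Q) (A1 / Q - 1) (Q1 / Q) H (x + ξ) x ψ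
  have HM := vminus t (1 - t) (Δ / Q) (Pr / Q) (A1 / Q - 1) (Q1 / Q) H (x + ξ) x ψ
  obtain ⟨-, -, -, gD, -, -, gθ, -, -, -, gγ0, gγ1, -, -⟩ := H
  have hΔ0 : 0 ≤ Δ := by
    have : 0 ≤ Δ / Q := by linarith
    rwa [le_div_iff₀ hQ, zero_mul] at this
  have hP0 : 0 ≤ Pr := by
    have := gθ.le
    rwa [le_div_iff₀ hQ, zero_mul] at this
  have hA0 : Q ≤ A1 := by
    have : 1 ≤ A1 / Q := by linarith
    rwa [le_div_iff₀ hQ, one_mul] at this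
  have hA1 : A1 ≤ 9 / 4 * Q := by
    have : A1 / Q ≤ 9 / 4 := by linarith
    rwa [div_le_iff₀ hQ] at this
  -- multiply the exact forms by Q
  have eP : Q * (Δ / Q * (x + ξ) ^ 2 + Δ / Q * t * (x + ξ) * (x + ψ) +
      (1 + t) * (Pr / Q * x ^ 2 + (x + ξ) ^ 2) +
      (2 * (1 + t) + 2 * (1 - t) * (A1 / Q - 1) + (1 - t) * (1 - Q1 / Q)) * (x + ξ) * ψ +
      t * (Pr / Q - 1 - (A1 / Q - 1) * (1 - t)) * x * ψ +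
      (2 + 3 * (1 - t) * (A1 / Q - 1) + (1 - t) * (1 - Q1 / Q)) * ψ ^ 2) =
      Δ * (x + ξ) ^ 2 + Δ * t * (x + ξ) * (x + ψ) +
      (1 + t) * (Pr * x ^ 2 + Q * (x + ξ) ^ 2) +
      (2 * (1 + t) * Q + 2 * (1 - t) * (A1 - Q) + (1 - t) * (Q - Q1)) * (x + ξ) * ψ +
      t * (Pr - Q - (A1 - Q) * (1 - t)) * x * ψ +
      (2 * Q + 3 * (1 - t) * (A1 - Q) + (1 - t) * (Q - Q1)) * ψ ^ 2 := by
    field_simp
  have eM : Q * (Δ / Q * (x + ξ) ^ 2 - Δ / Q * t * (x + ξ) * (x - ψ) +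
      (1 - t) * (Pr / Q * x ^ 2 + (x + ξ) ^ 2) -
      (1 - t) * (3 + 2 * (A1 / Q - 1) - Q1 / Q) * (x + ξ) * ψ +
      t * (Pr / Q - 1 - (A1 / Q - 1) * (1 - t)) * x * ψ +
      (2 + (3 - t) * (A1 / Q - 1) + (1 - t) * (1 - Q1 / Q)) * ψ ^ 2) =
      Δ * (x + ξ) ^ 2 - Δ * t * (x + ξ) * (x - ψ) +
      (1 - t) * (Pr * x ^ 2 + Q * (x + ξ) ^ 2) -
      (1 - t) * (3 * Q + 2 * (A1 - Q) - Q1) * (x + ξ) * ψ +
      t * (Pr - Q - (A1 - Q) * (1 - t)) * x * ψ +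
      (2 * Q + (3 - t) * (A1 - Q) + (1 - t) * (Q - Q1)) * ψ ^ 2 := by
    field_simp
  have HP' := mul_nonneg hQ.le HP
  have HM' := mul_nonneg hQ.le HM
  rw [eP] at HP'
  rw [eM] at HM'
  have ha1 : d1 * t / 2 ≤ d1 / 2 := by
    have : d1 * t ≤ d1 * 1 := mul_le_mul_of_nonneg_left ht1.le hd.le
    linarith
  have hd1 : d1 ≤ 1 := by
    have h1 : d1 * 1 ≤ d1 * (1000 * K ^ 2) := mul_le_mul_of_nonneg_left (by nlinarith) hd.le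
    nlinarith
  have haK : d1 * t / 2 * K ≤ ε / 4 := by
    have h1 : d1 * t / 2 * K ≤ d1 / 2 * K := mul_le_mul_of_nonneg_right ha1 (by linarith)
    have h2 : d1 * K ≤ d1 * K ^ 2 := mul_le_mul_of_nonneg_left (by nlinarith) hd.le
    have h3 : ε ^ 2 ≤ ε := by nlinarith
    linarith
  exact ⟨va_plus ε d1 t Q Pr Δ Bs A1 Q1 K x ξ ψ _ hε hd ht0 ht1 hd1 rfl (by linarith) hQ hQK hPK hΔK
      hdK hΔ0 hP0 hA0 hA1 HP',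
    va_minus ε d1 t Q Pr Δ Bs A1 Q1 K x ξ ψ _ hε hd ht0 ht1 hd1 rfl haK hQ hQK hPK hΔK
      hdK hΔ0 hP0 hA0 hA1 HM'⟩

end Helper85.NF
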