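import Pool.Agent.Helper87.NF.StC

/-!
# Module W3 (helper85)
-/

set_option autoImplicit false
set_option maxSynthPendingDepth 3

open MeasureTheory Complex Filter Topology
open scoped ENNReal NNReal ComplexConjugate

noncomputable section

namespace Helper85.NF

open Helper87.NF

theorem w3 : StW3 := by
  intro P P' q κ K H hq r s hs hr
  have H' : Helper85.IE.Wt P P' := by
    refine ⟨H.cont.continuousOn, H.pos, H.der, fun x hx => ?_, fun x hx => ?_⟩
    · have h1 := H.hi x hx
      have h2 := H.pos x hx
      have h3 : q * P x ≤ 1 * P x := mul_le_mul_of_nonneg_right hq h2.le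
      linarith
    · have h1 := H.lo x hx
      have h2 := H.pos x hx
      have h3 : κ * P x ≤ 1 / 10 * P x := mul_le_mul_of_nonneg_right H.κ1 h2.le
      linarith
  have h := H'.vbox hs hr.le
  have e1 : (∫ x in s..r, P x / x) = Bw P r - Bw P s := by
    rw [Bw, Bw, intervalIntegral.integral_interval_sub_left (H.int r (hs.trans hr)) (H.int s hs)]
  have e2 : 2 * (∫ x in (0 : ℝ)..s, P x) / (s * P s) - 1 = 2 * Aw P s / s / P s - 1 := by
    rw [Aw, div_div]
  rw [e1, e2] at h
  exact h

end Helper85.NF
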